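import Pool.Agent.Lunar.Hard
import Pool.Agent.Lunar.Phys
import Pool.Agent.Lunar.BApart
import Pool.Agent.Lunar.PhysNormal
import Pool.Agent.Lunar.Sim
import Pool.Agent.Lunar.Member

/-!
# LUNAR LOCKOUT is PSPACE-complete
-/

namespace Pool.Agent.Results.MP_2214b5_lc.LunarPSPACE

open Pool.Agent.Lunar Pool.Agent.SetPS

/-- LUNAR LOCKOUT is PSPACE-complete: it is in PSPACE, and every language in PSPACE is
polynomial-time many-one reducible to it. -/
theorem result : InPSPACE LUNAR ∧
    ∀ (Γ : Type) [Fintype Γ] (L : Set (List Γ)), InPSPACE L → PolyReduces L LUNAR :=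
  ⟨lunar_mem, fun Γ _ L hL =>
    lunar_hard (phys_of bApartZ_proof bApartA_proof physNormal_proof sim_proof) Γ L hL⟩

end Pool.Agent.Results.MP_2214b5_lc.LunarPSPACE
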